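import Pool.Agent.Y775.W3.Stm

/-!
# Project W3: alternating forms on polynomials
-/

set_option autoImplicit false

namespace Pool.Agent.Y212.W3

open Polynomial Y775.W3

section

variable {k : Type} [Field k]

/-- factors or a constant times a monic irreducible polynomial -/
theorem split {a : k[X]} {j : ℕ} (hj : 1 ≤ j) (ha : a ≠ 0) (hd : a.natDegree ≤ j) :
    ∃ x y : k[X], a = x * y ∧ (x ≠ 0 ∧ x.natDegree < j ∨ Irreducible x ∧ x.Monic ∧
      x.natDegree = j) ∧ (y ≠ 0 ∧ y.natDegree < j ∨ Irreducible y ∧ y.Monic ∧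
      y.natDegree = j) := by
  rcases hd.lt_or_eq with hd | hd
  · exact ⟨a, 1, (mul_one a).symm, Or.inl ⟨ha, hd⟩, Or.inl ⟨one_ne_zero, by
      rw [natDegree_one]; omega⟩⟩
  by_cases hirr : Irreducible a
  · have hl : a.leadingCoeff ≠ 0 := leadingCoeff_ne_zero.mpr ha
    refine ⟨C a.leadingCoeff, a * C (a.leadingCoeff)⁻¹, ?_, Or.inl ⟨C_ne_zero.mpr hl, by
      rw [natDegree_C]; omega⟩, Or.inr ⟨irreducible_mul_leadingCoeff_inv.mpr hirr,
        monic_mul_leadingCoeff_inv ha, ?_⟩⟩
    · rw [mul_comm a, ← mul_assoc, ← C_mul, mul_inv_cancel₀ hl, C_1, one_mul]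
    · rw [natDegree_mul_C (inv_ne_zero hl), hd]
  · have hu : ¬ IsUnit a := by
      intro h
      have := natDegree_eq_zero_of_isUnit h
      omega
    rw [irreducible_iff] at hirr
    push Not at hirr
    obtain ⟨x, y, hxy, hx, hy⟩ := hirr hu
    have hx0 : x ≠ 0 := by
      rintro rfl
      exact ha (by rw [hxy, zero_mul])
    have hy0 : y ≠ 0 := by
      rintro rfl
      exact ha (by rw [hxy, mul_zero])
    have hn : ∀ z : k[X], z ≠ 0 → ¬ IsUnit z → 1 ≤ z.natDegree := by
      intro z hz hz'
      by_contra h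
      have h0 : z.natDegree = 0 := by omega
      rw [eq_C_of_natDegree_eq_zero h0] at hz hz'
      exact hz' (isUnit_C.mpr (isUnit_iff_ne_zero.mpr (C_ne_zero.mp hz)))
    have h1 := hn x hx0 hx
    have h2 := hn y hy0 hy
    have h3 : x.natDegree + y.natDegree = j := by
      rw [← natDegree_mul hx0 hy0, ← hxy, hd]
    exact ⟨x, y, hxy, Or.inl ⟨hx0, by omega⟩, Or.inl ⟨hy0, by omega⟩⟩

/-- the remainder of a product of degree equal to that of `P` -/
theorem rem_mul {P b c : k[X]} (hP : P.Monic) (hirr : Irreducible P) (hb : b ≠ 0) (hc : c ≠ 0)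
    (hbd : b.natDegree < P.natDegree) (hcd : c.natDegree < P.natDegree)
    (he : b.natDegree + c.natDegree = P.natDegree) :
    ∃ l : k, l ≠ 0 ∧ (b * c) %ₘ P + C l * P = b * c ∧ (b * c) %ₘ P ≠ 0 ∧
      ((b * c) %ₘ P).natDegree < P.natDegree := by
  have hbc : b * c ≠ 0 := mul_ne_zero hb hc
  have hl : (b * c).leadingCoeff ≠ 0 := leadingCoeff_ne_zero.mpr hbc
  have hdeg : (b * c).degree = (C (b * c).leadingCoeff * P).degree := by
    rw [degree_C_mul hl, degree_eq_natDegree hbc, natDegree_mul hb hc, he,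
      degree_eq_natDegree hP.ne_zero]
  have hlt : (b * c - C (b * c).leadingCoeff * P).degree < P.degree := by
    have h1 := degree_sub_lt hdeg hbc (by
      rw [leadingCoeff_mul (C (b * c).leadingCoeff) P, hP.leadingCoeff, leadingCoeff_C, mul_one])
    rwa [hdeg, degree_C_mul hl] at h1
  have hmod : (b * c) %ₘ P = b * c - C (b * c).leadingCoeff * P :=
    (div_modByMonic_unique (C (b * c).leadingCoeff) (b * c - C (b * c).leadingCoeff * P) hP
      ⟨by ring, hlt⟩).2
  refine ⟨(b * c).leadingCoeff, hl, by rw [hmod]; ring, fun h => ?_, ?_⟩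
  · have hdvd : P ∣ b * c := (modByMonic_eq_zero_iff_dvd hP).mp h
    rcases hirr.prime.dvd_or_dvd hdvd with h1 | h1
    · exact absurd (natDegree_le_of_dvd h1 hb) (by omega)
    · exact absurd (natDegree_le_of_dvd h1 hc) (by omega)
  · exact natDegree_modByMonic_lt _ hP (fun h => by
      rw [h, natDegree_one] at hbd
      omega)

end

theorem main (h1 : StmHOM) (h2 : StmPOLY) (h3 : StmLOC) : StmALTP := by
  intro k _ ℓ _ _ _ W _ L hL htor n ω hanti hneg hcyc
  have hself : ∀ a, ω a a = 0 := fun a => by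
    have := hanti a a
    linarith
  -- constants
  have hconst : ∀ c : k, c ≠ 0 → ∀ w, ω (L (C c)) w = 0 := by
    intro c hc w
    obtain ⟨N, hN, hN'⟩ := htor c hc
    have h4 : (N : ℚ) * ω (L (C c)) w = 0 := by
      rw [← nsmul_eq_mul]
      have h5 : ω (N • L (C c)) w = N • ω (L (C c)) w := by
        rw [map_nsmul, LinearMap.smul_apply]
      rw [← h5, hN', map_zero, LinearMap.zero_apply]
    have h6 : (N : ℚ) ≠ 0 := by
      exact_mod_cast hN.ne'
    exact (mul_eq_zero.mp h4).resolve_left h6
  have hconst' : ∀ c : k, c ≠ 0 → ∀ w, ω w (L (C c)) = 0 := fun c hc w => by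
    rw [hanti, hconst c hc, neg_zero]
  have key : ∀ j : ℕ, j ≤ n → ∀ a b : k[X], a ≠ 0 → b ≠ 0 → a.natDegree < j → b.natDegree < j →
      ω (L a) (L b) = 0 := by
    intro j
    induction j with
    | zero =>
      intro _ a b _ _ h _
      exact absurd h (Nat.not_lt_zero _)
    | succ j ih =>
      intro hj a b ha hb had hbd
      rcases Nat.eq_zero_or_pos j with rfl | hj0
      · have h4 : a.natDegree = 0 := by omega
        rw [eq_C_of_natDegree_eq_zero h4] at ha ⊢
        exact hconst _ (C_ne_zero.mp ha) _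
      have ihj := ih (by omega)
      -- (i)
      have st1 : ∀ P : k[X], Irreducible P → P.Monic → P.natDegree = j → ∀ c : k[X], c ≠ 0 →
          c.natDegree < j → ω (L P) (L c) = 0 := by
        intro P hirr hP hPj c hc hcj
        have : Fact (Irreducible P) := ⟨hirr⟩
        obtain ⟨D, hp, hρ, hS, hAdm, hrep⟩ := h2 k P hP
        have h4 := h1 k[X] (AdjoinRoot P) D (h3.2.1 k ℓ P) (fun b => ω (L P) (L b)) (by
          intro b hb c hc hbc
          rw [hS] at hb hc
          rw [hAdm] at hbc
          obtain ⟨hb0, hbd⟩ := hb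
          obtain ⟨hc0, hcd⟩ := hc
          have h5 : D.rep (D.ρ b * D.ρ c) = (b * c) %ₘ P := by
            rw [hρ, ← map_mul, hrep]
          change ω (L P) (L (D.rep (D.ρ b * D.ρ c))) = ω (L P) (L b) + ω (L P) (L c)
          rw [h5]
          rcases hbc.lt_or_eq with hlt | heq
          · have h6 : (b * c) %ₘ P = b * c := by
              rw [modByMonic_eq_self_iff hP, degree_eq_natDegree (mul_ne_zero hb0 hc0),
                natDegree_mul hb0 hc0, degree_eq_natDegree hP.ne_zero]
              exact_mod_cast hlt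
            rw [h6, hL b c hb0 hc0, map_add]
          · obtain ⟨l, hl, e1, e2, e3⟩ := rem_mul hP hirr hb0 hc0 hbd hcd heq
            have hCl : (C l : k[X]) ≠ 0 := C_ne_zero.mpr hl
            have h7 := hcyc ((b * c) %ₘ P) ⟨e2, by omega⟩ (C l * P)
              ⟨mul_ne_zero hCl hP.ne_zero, by rw [natDegree_C_mul hl]; omega⟩ (b * c)
              ⟨mul_ne_zero hb0 hc0, by rw [natDegree_mul hb0 hc0]; omega⟩ e1
            rw [sF, hL (C l) P hCl hP.ne_zero, hL b c hb0 hc0] at h7
            simp only [map_add, LinearMap.add_apply] at h7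
            have h8 := hconst' l hl (L ((b * c) %ₘ P))
            have h9 := hconst l hl (L b)
            have h10 := hconst l hl (L c)
            have h11 := ihj b ((b * c) %ₘ P) hb0 e2 (by omega) (by omega)
            have h12 := ihj c ((b * c) %ₘ P) hc0 e2 (by omega) (by omega)
            have h13 := hanti (L ((b * c) %ₘ P)) (L P)
            linarith)
        exact h4 c (by rw [hS]; exact ⟨hc, by omega⟩)
      -- (ii)
      have st2 : ∀ P P' : k[X], Irreducible P → P.Monic → P.natDegree = j → Irreducible P' →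
          P'.Monic → P'.natDegree = j → ω (L P) (L P') = 0 := by
        intro P P' hirr hP hPj hirr' hP' hPj'
        by_cases he : P = P'
        · rw [he]
          exact hself _
        have hc : P - P' ≠ 0 := sub_ne_zero.mpr he
        have hdeg : P.degree = P'.degree := by
          rw [degree_eq_natDegree hP.ne_zero, degree_eq_natDegree hP'.ne_zero, hPj, hPj']
        have hcd : (P - P').natDegree < j := by
          have h4 := degree_sub_lt hdeg hP.ne_zero (by rw [hP.leadingCoeff, hP'.leadingCoeff])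
          have h5 := natDegree_lt_natDegree hc h4
          omega
        have h7 := hcyc (P - P') ⟨hc, by omega⟩ P' ⟨hP'.ne_zero, by omega⟩ P ⟨hP.ne_zero, by omega⟩
          (by ring)
        rw [sF] at h7
        have h8 := st1 P' hirr' hP' hPj' _ hc hcd
        have h9 := st1 P hirr hP hPj _ hc hcd
        have h10 := hanti (L (P - P')) (L P')
        have h11 := hanti (L P) (L P')
        linarith
      -- (iii)
      have st3 : ∀ x y : k[X], (x ≠ 0 ∧ x.natDegree < j ∨ Irreducible x ∧ x.Monic ∧
          x.natDegree = j) → (y ≠ 0 ∧ y.natDegree < j ∨ Irreducible y ∧ y.Monic ∧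
          y.natDegree = j) → ω (L x) (L y) = 0 := by
        rintro x y (⟨hx, hx'⟩ | ⟨hx, hx', hx''⟩) (⟨hy, hy'⟩ | ⟨hy, hy', hy''⟩)
        · exact ihj x y hx hy hx' hy'
        · rw [hanti, st1 y hy hy' hy'' x hx hx', neg_zero]
        · exact st1 x hx hx' hx'' y hy hy'
        · exact st2 x y hx hx' hx'' hy hy' hy''
      have hne : ∀ x : k[X], (x ≠ 0 ∧ x.natDegree < j ∨ Irreducible x ∧ x.Monic ∧
          x.natDegree = j) → x ≠ 0 := by
        rintro x (⟨hx, -⟩ | ⟨hx, -, -⟩)
        · exact hx
        · exact hx.ne_zero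
      obtain ⟨x, y, rfl, hx, hy⟩ := split hj0 ha (by omega)
      obtain ⟨x', y', rfl, hx', hy'⟩ := split hj0 hb (by omega)
      rw [hL x y (hne x hx) (hne y hy), hL x' y' (hne x' hx') (hne y' hy')]
      simp only [map_add, LinearMap.add_apply]
      rw [st3 x x' hx hx', st3 x y' hx hy', st3 y x' hy hx', st3 y y' hy hy']
      norm_num
  intro a ha b hb
  exact key n le_rfl a b ha.1 hb.1 ha.2 hb.2

end Pool.Agent.Y212.W3
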